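import Pool.Agent.MP_d7736f_co.RPFinal

namespace Pool.Agent.Results.MP_d7736f_co.ProjectiveUpperBound

open Pool.Agent.MP_d7736f_co

theorem result (v : ℕ) (hv : 10 ^ 7 ≤ v) :
    ∃ n : ℕ, crossingNumber ProjPlane v = n ∧ (n : ℝ) / ((v : ℝ) ^ 4 / 8) ≤ 5007 / 50000 := by
  obtain ⟨n, h1, h2⟩ := RP.final (v := v) (k := v / 120 + 1) (by omega) (by omega)
  refine ⟨n, h1, ?_⟩
  have hv' : (10 ^ 7 : ℝ) ≤ v := by exact_mod_cast hv
  have h3 : (96 : ℝ) * n ≤ 249155616 * ((v / 120 + 1 : ℕ) : ℝ) ^ 4 := by exact_mod_cast h2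
  have h4 : ((v / 120 + 1 : ℕ) : ℝ) ≤ (1 / 120 + 1 / 10 ^ 7) * v := by
    have : ((v / 120 : ℕ) : ℝ) ≤ v / 120 := Nat.cast_div_le
    push_cast
    linarith
  have h5 := pow_le_pow_left₀ (Nat.cast_nonneg _) h4 4
  rw [mul_pow] at h5
  have h6 : (0 : ℝ) < (v : ℝ) ^ 4 := by positivity
  rw [div_le_iff₀ (by positivity)]
  nlinarith

end Pool.Agent.Results.MP_d7736f_co.ProjectiveUpperBound
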