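import Pool.Agent.Mg.Fd7736fq.Ge18413
import Pool.Agent.Mg.Fd7736fq.G762abb
import Pool.Agent.Mg.Fd7736fq.G815793

namespace Pool.Agent.Results.MP_d7736f_co.TorusLowerBound

open Pool.Agent.MP_d7736f_co Pool.Agent.MP_d7736f_co.LB Pool.Agent.MP_d7736f_co.TB

theorem result (v : ℕ) (hv : 10 ^ 6 ≤ v) :
    373 * (v : ℕ∞) ^ 4 ≤ 40000 * crossingNumber Torus v := by
  by_cases hfin : crossingNumber Torus v = ⊤
  · rw [hfin]; simp
  obtain ⟨D, hD, hc⟩ := exists_clean charts_torus hfin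
  obtain ⟨M, hM⟩ := model_of_clean D hc
  have h1 := sum_tr_le D M.x hM
  have h2 := M.total
  rw [hD] at h1
  obtain ⟨n, hn⟩ := ENat.ne_top_iff_exists.1 hfin
  rw [← hn] at h1 ⊢
  have h3 : (∑ a, ∑ b, ∑ c, ∑ d, if Dist4 a b c d then M.x a b c d else 0) ≤ 8 * n := by
    exact_mod_cast h1
  have h4 : S4 (fun a b c d => (M.x a b c d : ℤ)) ≤ 8 * n := by
    rw [S4]; exact_mod_cast h3
  rw [Fintype.card_fin] at h2
  have hv' : (10 ^ 6 : ℤ) ≤ v := by exact_mod_cast hv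
  have h5 : (0 : ℤ) < v := by linarith
  have h6 : (v : ℤ) * (373 * v ^ 4) ≤ v * (40000 * n) := by
    have h7 := mul_le_mul_of_nonneg_left h4 h5.le
    have h8 := mul_le_mul_of_nonneg_right hv' (pow_pos h5 4).le
    nlinarith
  exact_mod_cast le_of_mul_le_mul_left h6 h5

end Pool.Agent.Results.MP_d7736f_co.TorusLowerBound
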