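import Pool.Agent.MP_d7736f_co.Draw
import Pool.Agent.MP_d7736f_co.Total
import Pool.Agent.MP_d7736f_co.Small

namespace Pool.Agent.Results.MP_d7736f_co.TorusUpperBound

open Pool.Agent.MP_d7736f_co

theorem cert : ∃ pos, Cert dirT pxT pyT 1048576 56 E0 pos := by
  have h : ∀ i j : ℕ, ∃ n, i ≤ j → j < 56 →
      n < E0.length ∧ (E0.getD n r0).i = i ∧ (E0.getD n r0).j = j := by
    intro i j
    by_cases hij : i ≤ j ∧ j < 56
    · have := mem_pairs hij.1 hij.2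
      rw [← keys_all, List.mem_map] at this
      obtain ⟨r, hr, e⟩ := this
      obtain ⟨n, hn, rfl⟩ := List.getElem_of_mem hr
      refine ⟨n, fun _ _ => ⟨hn, ?_⟩⟩
      rw [List.getD_eq_getElem _ _ hn]
      exact Prod.mk.inj e
    · exact ⟨0, fun a b => absurd ⟨a, b⟩ hij⟩
  choose pos hpos using h
  refine ⟨pos, fun r hr => ?_, hpos, avoid_all, by rw [tot0]; decide⟩
  exact of_decide_eq_true (List.all_eq_true.1 valid_all r hr)

theorem result (v : ℕ) (hv : 10 ^ 7 ≤ v) :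
    ∃ n : ℕ, crossingNumber Torus v = n ∧ (n : ℝ) / ((v : ℝ) ^ 4 / 8) ≤ 1123 / 12500 := by
  obtain ⟨pos, C⟩ := cert
  obtain ⟨n, h1, h2⟩ := C.bound (v := v) (k := v / 56 + 1) (by omega)
  refine ⟨n, h1, ?_⟩
  rw [tot0] at h2
  have hv' : (10 ^ 7 : ℝ) ≤ v := by exact_mod_cast hv
  have h3 : (24 : ℝ) * n ≤ 2650424 * ((v / 56 + 1 : ℕ) : ℝ) ^ 4 := by exact_mod_cast h2
  have h4 : ((v / 56 + 1 : ℕ) : ℝ) ≤ (1 / 56 + 1 / 10 ^ 7) * v := by
    have : ((v / 56 : ℕ) : ℝ) ≤ v / 56 := Nat.cast_div_le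
    push_cast
    linarith
  have h5 := pow_le_pow_left₀ (Nat.cast_nonneg _) h4 4
  rw [mul_pow] at h5
  have h6 : (0 : ℝ) < (v : ℝ) ^ 4 := by positivity
  rw [div_le_iff₀ (by positivity)]
  nlinarith

end Pool.Agent.Results.MP_d7736f_co.TorusUpperBound
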